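import Pool.Agent.H71.ASF.Stmts

/-! Project ASF (MP_8ae111_al), module CRU: rules for a null ideal with `(A,B,B) = 0`. -/

namespace ASF

universe u

theorem cru : CRUStmt.{u} := by
  intro A _ _ B hB b hb c hc x y
  have bc : b * c = 0 := hB.n b hb c hc
  have cb : c * b = 0 := hB.n c hc b hb
  have z1 : ∀ w, asc w b c = 0 := hB.z b hb c hc
  have z2 : ∀ w, asc b w c = 0 := fun w => by rw [asc_s12, z1, neg_zero]
  have k0 : kl x y b c = 0 := by
    rw [kl, z1, z1, z1, mul_zero, zero_mul, sub_zero, sub_zero]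
  have k1 : kl x b y c = 0 := by rw [kl_s23, k0, neg_zero]
  have k2 : kl b x y c = 0 := by rw [kl_s12, k1, neg_zero]
  have k3 : kl b c x y = 0 := by rw [kl_pair, k0]
  refine ⟨?_, ?_, ?_, ?_, ?_, ?_⟩
  · have h := z1 x
    rw [asc, bc, mul_zero, sub_zero] at h
    exact h
  · have h : asc c b x = 0 := by rw [asc_s13, z1, neg_zero]
    rw [asc, cb, zero_mul, zero_sub, neg_eq_zero] at h
    exact h
  · have h := z2 x
    rw [asc] at h
    exact sub_eq_zero.mp h
  · rw [kl, z2, zero_mul, sub_zero] at k1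
    exact sub_eq_zero.mp k1
  · rw [kl, z2, mul_zero, sub_zero] at k2
    exact sub_eq_zero.mp k2
  · rw [kl, bc, asc_zero1, zero_sub] at k3
    linear_combination (norm := abel) -k3

end ASF
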