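import Pool.Agent.H71.ASF.Stmts

/-! Project ASF (MP_8ae111_al), module CTL: curvature-like tensors. -/

namespace ASF

universe u

theorem ctl : CTLStmt.{u} := by
  intro M _ N _ B G t2 t3 add1 add3 s12 s34 bi vab
  -- pair symmetry
  have pair : ∀ a ∈ B, ∀ b ∈ B, ∀ c ∈ B, ∀ d ∈ B, G a b c d = G c d a b := by
    intro a ha b hb c hc d hd
    have h1 := bi a ha b hb c hc d hd
    have h2 := bi b hb c hc d hd a ha
    have h3 := bi c hc d hd a ha b hb
    have h4 := bi d hd a ha b hb c hc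
    rw [s34 b hb c hc a ha d hd, s34 c hc d hd a ha b hb, s12 b hb d hd c hc a ha,
      s34 b hb d hd a ha c hc] at h2
    rw [s12 a ha d hd c hc b hb, s34 a ha d hd b hb c hc, s34 a ha c hc b hb d hd,
      s12 c hc a ha b hb d hd] at h3
    rw [s12 a ha d hd b hb c hc, s34 a ha b hb c hc d hd] at h4
    have h5 : (G a b c d - G c d a b) + (G a b c d - G c d a b) = 0 := by
      linear_combination (norm := abel) h1 - h3 - h4 + h2
    exact sub_eq_zero.mp (t2 _ h5)
  have add2 : ∀ a ∈ B, ∀ b ∈ B, ∀ b' ∈ B, ∀ c ∈ B, ∀ d ∈ B,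
      G a (b + b') c d = G a b c d + G a b' c d := by
    intro a ha b hb b' hb' c hc d hd
    rw [s12 (b + b') (B.add_mem hb hb') a ha c hc d hd, add1 b hb b' hb' a ha c hc d hd,
      s12 a ha b hb c hc d hd, s12 a ha b' hb' c hc d hd]
    abel
  have add4 : ∀ a ∈ B, ∀ b ∈ B, ∀ c ∈ B, ∀ d ∈ B, ∀ d' ∈ B,
      G a b c (d + d') = G a b c d + G a b c d' := by
    intro a ha b hb c hc d hd d' hd'
    rw [s34 a ha b hb (d + d') (B.add_mem hd hd') c hc, add3 a ha b hb d hd d' hd' c hc,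
      s34 a ha b hb c hc d hd, s34 a ha b hb c hc d' hd']
    abel
  have q1 : ∀ a ∈ B, ∀ b ∈ B, ∀ c ∈ B, G a b c b = 0 := by
    intro a ha b hb c hc
    have h := vab (a + c) (B.add_mem ha hc) b hb
    rw [add1 a ha c hc b hb _ (B.add_mem ha hc) b hb, add3 a ha b hb a ha c hc b hb,
      add3 c hc b hb a ha c hc b hb, vab a ha b hb, vab c hc b hb,
      pair c hc b hb a ha b hb] at h
    apply t2
    linear_combination (norm := abel) h
  have q2 : ∀ a ∈ B, ∀ b ∈ B, ∀ c ∈ B, ∀ d ∈ B, G a b c d = - G a d c b := by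
    intro a ha b hb c hc d hd
    have h := q1 a ha (b + d) (B.add_mem hb hd) c hc
    rw [add2 a ha b hb d hd c hc _ (B.add_mem hb hd), add4 a ha b hb c hc b hb d hd,
      add4 a ha d hd c hc b hb d hd, q1 a ha b hb c hc, q1 a ha d hd c hc] at h
    linear_combination (norm := abel) h
  intro a ha b hb c hc d hd
  have h3 := bi c hc d hd a ha b hb
  have e1 : G c d a b = G a b c d := (pair a ha b hb c hc d hd).symm
  have e2 : G d a c b = G a b c d := by
    rw [s12 a ha d hd c hc b hb, ← q2 a ha b hb c hc d hd]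
  have e3 : G a c d b = G a b c d := by
    rw [q2 a ha c hc d hd b hb, s34 a ha b hb c hc d hd, neg_neg]
  rw [e1, e2, e3] at h3
  exact t3 _ h3

end ASF
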