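import Pool.Agent.H71.ASF.Stmts

/-! Project ASF (MP_8ae111_al), module NL3: first level orthogonality. -/

namespace ASF

universe u

namespace NL3

section

variable {A : Type*} [NonUnitalNonAssocRing A] [Alt A] {D : A → A} {b : A}

theorem ra_s (hD : IsDer D) (hr : ∀ x, D x * b = 0) (x a : A) :
    (D x * a) * b = asc b (D a) x := by
  have h1 := hr (x * a)
  rw [hD.mul, add_mul] at h1
  have h2 : (x * D a) * b = asc x (D a) b := by rw [asc, hr, mul_zero, sub_zero]
  rw [h2, asc_s13 b (D a) x] at h1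
  linear_combination (norm := abel) h1

theorem ar_s (hr : ∀ x, D x * b = 0) (x a : A) : (a * D x) * b = - asc b (D x) a := by
  have h2 : (a * D x) * b = asc a (D x) b := by rw [asc, hr, mul_zero, sub_zero]
  rw [h2, asc_s13 b (D x) a]

omit [Alt A] in
theorem s_ra (hl : ∀ x, b * D x = 0) (x a : A) : b * (D x * a) = - asc b (D x) a := by
  rw [asc, hl, zero_mul, zero_sub, neg_neg]

theorem s_ar (hD : IsDer D) (hl : ∀ x, b * D x = 0) (x a : A) :
    b * (a * D x) = asc b (D a) x := by
  have h1 := hl (a * x)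
  rw [hD.mul, mul_add, s_ra hl a x] at h1
  linear_combination (norm := abel) h1

theorem r_sa (hr : ∀ x, D x * b = 0) (x a : A) : D x * (b * a) = asc b (D x) a := by
  have h2 : D x * (b * a) = - asc (D x) b a := by rw [asc, hr, zero_mul, zero_sub, neg_neg]
  rw [h2, asc_s12 b (D x) a, neg_neg]

theorem r_as (hD : IsDer D) (hr : ∀ x, D x * b = 0) (x a : A) :
    D x * (a * b) = asc b (D a) x - asc b (D x) a := by
  have h2 : D x * (a * b) = (D x * a) * b - asc (D x) a b := by rw [asc]; abel
  rw [h2, ra_s hD hr, asc_cyc b (D x) a]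

theorem sa_r (hD : IsDer D) (hl : ∀ x, b * D x = 0) (x a : A) :
    (b * a) * D x = asc b (D a) x - asc b (D x) a := by
  have h2 : (b * a) * D x = asc b a (D x) + b * (a * D x) := by rw [asc]; abel
  rw [h2, s_ar hD hl, asc_s23 b (D x) a]; abel

theorem as_r (hl : ∀ x, b * D x = 0) (x a : A) : (a * b) * D x = asc b (D x) a := by
  have h2 : (a * b) * D x = asc a b (D x) := by rw [asc, hl, mul_zero, sub_zero]
  rw [h2, asc_cyc']

end

end NL3

theorem nl3 (hK : KBEStmt.{u}) : NL3Stmt.{u} := by
  intro A _ _ _ b1 b2 b3 h x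
  obtain ⟨n, r3, l3, r1, l1, r2, l2⟩ := h
  have star : ∀ y z : A, asc b3 (dl b1 b2 y) z + asc b1 (dl b2 b3 y) z
      + asc b2 (dl b3 b1 y) z = 0 := by
    intro y z
    have e : cm b3 (dl b1 b2 y) = 0 := by rw [cm, r3, l3, sub_zero]
    rw [hK A b1 b2 b3 n y z, vv, e, cm_zero1]
  have d12 : IsDer (dl b1 b2 : A → A) := dl_isDer n.h12 n.h21
  have d23 : IsDer (dl b2 b3 : A → A) := dl_isDer n.h23 n.h32
  have d31 : IsDer (dl b3 b1 : A → A) := dl_isDer n.h31 n.h13
  constructor
  · simp [Fin.sum_univ_three, r3, r1, r2]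
  · simp [Fin.sum_univ_three, l3, l1, l2]
  · intro a
    simp only [Fin.sum_univ_three, Matrix.cons_val_zero, Matrix.cons_val_one, Matrix.cons_val]
    rw [NL3.ra_s d12 r3, NL3.ra_s d23 r1, NL3.ra_s d31 r2]
    exact star a x
  · intro a
    simp only [Fin.sum_univ_three, Matrix.cons_val_zero, Matrix.cons_val_one, Matrix.cons_val]
    rw [NL3.ar_s r3, NL3.ar_s r1, NL3.ar_s r2]
    linear_combination (norm := abel) - star x a
  · intro a
    simp only [Fin.sum_univ_three, Matrix.cons_val_zero, Matrix.cons_val_one, Matrix.cons_val]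
    rw [NL3.s_ra l3, NL3.s_ra l1, NL3.s_ra l2]
    linear_combination (norm := abel) - star x a
  · intro a
    simp only [Fin.sum_univ_three, Matrix.cons_val_zero, Matrix.cons_val_one, Matrix.cons_val]
    rw [NL3.s_ar d12 l3, NL3.s_ar d23 l1, NL3.s_ar d31 l2]
    exact star a x
  · intro a
    simp only [Fin.sum_univ_three, Matrix.cons_val_zero, Matrix.cons_val_one, Matrix.cons_val]
    rw [NL3.r_sa r3, NL3.r_sa r1, NL3.r_sa r2]
    exact star x a
  · intro a
    simp only [Fin.sum_univ_three, Matrix.cons_val_zero, Matrix.cons_val_one, Matrix.cons_val]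
    rw [NL3.r_as d12 r3, NL3.r_as d23 r1, NL3.r_as d31 r2]
    linear_combination (norm := abel) star a x - star x a
  · intro a
    simp only [Fin.sum_univ_three, Matrix.cons_val_zero, Matrix.cons_val_one, Matrix.cons_val]
    rw [NL3.sa_r d12 l3, NL3.sa_r d23 l1, NL3.sa_r d31 l2]
    linear_combination (norm := abel) star a x - star x a
  · intro a
    simp only [Fin.sum_univ_three, Matrix.cons_val_zero, Matrix.cons_val_one, Matrix.cons_val]
    rw [NL3.as_r l3, NL3.as_r l1, NL3.as_r l2]
    exact star x a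

end ASF
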