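import Pool.Agent.H71.ASF.Stmts

/-! Project ASF (MP_8ae111_al), module NW3: words. -/

namespace ASF

universe u

theorem nw3 (h1 : NL3Stmt.{u}) (h2 : NLMStmt.{u}) : NW3Stmt.{u} := by
  intro A _ _ _ b1 b2 b3 h x l m
  have n := h.n
  have hD : ∀ k : Fin 3, IsDer ((![dl b1 b2, dl b2 b3, dl b3 b1] : Fin 3 → A → A) k) := by
    intro k
    fin_cases k
    · exact dl_isDer n.h12 n.h21
    · exact dl_isDer n.h23 n.h32
    · exact dl_isDer n.h31 n.h13
  have hO : ∀ y : A, O1F (fun k => (![dl b1 b2, dl b2 b3, dl b3 b1] : Fin 3 → A → A) k y)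
      (![b3, b1, b2] : Fin 3 → A) := by
    intro y
    have e : (fun k => (![dl b1 b2, dl b2 b3, dl b3 b1] : Fin 3 → A → A) k y)
        = (![dl b1 b2 y, dl b2 b3 y, dl b3 b1 y] : Fin 3 → A) := by
      funext k; fin_cases k <;> rfl
    rw [e]
    exact h1 A b1 b2 b3 h y
  have key := h2 A (Fin 3) ![dl b1 b2, dl b2 b3, dl b3 b1] ![b3, b1, b2] hD hO x l m
  simpa [Fin.sum_univ_three] using key

end ASF
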